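import Pool.Agent.Helper21.D2.Stmts
import Pool.Agent.Helper82.AHS.Trn

/-!
# D2, module MAIN: thin Hodge structures have absolute Hodge tensors, up to signs
-/

set_option autoImplicit false

namespace Pool.Agent.Helper21.TH

open Matrix Pool.Agent.Helper82.AHS

namespace MAIN52

variable {r : ℕ}

theorem up_add {m n : ℕ} (K : Type*) [Field K] [Algebra ℚ K] (s t : T r m n ℚ) :
    up K (s + t) = up K s + up K t := by
  ext i j
  exact (algebraMap ℚ K).map_add _ _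

theorem up_zero {m n : ℕ} (K : Type*) [Field K] [Algebra ℚ K] :
    up K (0 : T r m n ℚ) = 0 := by
  ext i j
  simp [up]

theorem up_inj {m n : ℕ} (K : Type*) [Field K] [Algebra ℚ K] {s t : T r m n ℚ}
    (h : up K s = up K t) : s = t := by
  ext i j
  have h1 := congrFun (congrFun h i) j
  exact (algebraMap ℚ K).injective h1

theorem act_add {m n : ℕ} {K : Type*} [Field K] (g : GL (Fin r) K) (s t : T r m n K) :
    act g (s + t) = act g s + act g t := by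
  simp [act, Matrix.mul_add, Matrix.add_mul]

theorem act_zero {m n : ℕ} {K : Type*} [Field K] (g : GL (Fin r) K) :
    act g (0 : T r m n K) = 0 := by
  simp [act]

theorem hodge_zero {m n : ℕ} (V : HS r) : V.Hodge (0 : T r m n ℚ) := by
  simp [HS.Hodge, up_zero]

theorem map_q (Q : Matrix (Fin r) (Fin r) ℚ) : Q.map (algebraMap ℚ ℚ) = Q := by
  ext i j
  simp

end MAIN52

open MAIN52

/-- the common part of the two cases -/
theorem main_aux (psd : ST_PSD) (hdg : ST_HDG) (gnr : ST_GNR) {r : ℕ} (S : System r) (w : ℤ)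
    (hT : Thin S.V w) (hA : AIrr S.V w) (σ : ℂ ≃+* ℂ) (hdet : S.Q.det ≠ 0)
    (hsym : (S.Q)ᵀ = S.Q ∨ (S.Q)ᵀ = -S.Q) (hodd : Odd w → (S.Q)ᵀ = -S.Q)
    (Q' : Matrix (Fin r) (Fin r) ℚ) (c μ : ℂ) (hc : c ≠ 0)
    (hM : ((S.M σ : GL (Fin r) ℂ) : Matrix (Fin r) (Fin r) ℂ)ᵀ * Q'.map (algebraMap ℚ ℂ) *
      ((S.M σ : GL (Fin r) ℂ) : Matrix (Fin r) (Fin r) ℂ) = c • S.Q.map (algebraMap ℚ ℂ))
    (hW : (S.W σ).Dᵀ * Q'.map (algebraMap ℚ ℂ) + Q'.map (algebraMap ℚ ℂ) * (S.W σ).D =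
      μ • Q'.map (algebraMap ℚ ℂ)) (s : Nat.Primes → ℚ) (C : Prop)
    (hs : ∀ (m n : ℕ) (t₁ t₂ : T r m n ℚ),
        (∀ g : GL (Fin r) ℂ, (g : Matrix (Fin r) (Fin r) ℂ)ᵀ * S.Q.map (algebraMap ℚ ℂ) *
            (g : Matrix (Fin r) (Fin r) ℂ) = S.Q.map (algebraMap ℚ ℂ) →
          act g (up ℂ t₁) = up ℂ t₁ ∧
          act g (up ℂ t₂) = (g : Matrix (Fin r) (Fin r) ℂ).det • up ℂ t₂) →
        (m = n ∨ C) → (t₂ = 0 ∨ Even r ∨ C) →
        ∃ a b : T r m n ℚ, up ℂ a = act (S.M σ) (up ℂ t₁) ∧ up ℂ b = act (S.M σ) (up ℂ t₂) ∧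
          ∀ ℓ : Nat.Primes,
            up (@Padic ℓ ⟨ℓ.2⟩) a = act (S.E σ ℓ) (up (@Padic ℓ ⟨ℓ.2⟩) t₁) ∧
            up (@Padic ℓ ⟨ℓ.2⟩) (s ℓ • b) = act (S.E σ ℓ) (up (@Padic ℓ ⟨ℓ.2⟩) t₂))
    (hμ : C → μ = 0) (m n : ℕ) (t : T r m n ℚ) (ht : S.V.Hodge t) (hmn : m = n ∨ C) :
    ∃ a b : T r m n ℚ, (S.W σ).Hodge a ∧ (S.W σ).Hodge b ∧
      up ℂ (a + b) = act (S.M σ) (up ℂ t) ∧
      (∀ ℓ : Nat.Primes, up (@Padic ℓ ⟨ℓ.2⟩) (a + s ℓ • b) =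
        act (S.E σ ℓ) (up (@Padic ℓ ⟨ℓ.2⟩) t)) ∧
      (Odd w ∨ m + n < r ∨ Odd (m + n + r) → b = 0) ∧
      ((∃ g : GL (Fin r) ℚ, (g : Matrix (Fin r) (Fin r) ℚ)ᵀ * S.Q *
        (g : Matrix (Fin r) (Fin r) ℚ) = S.Q ∧ act g t ≠ t) → b ≠ 0) := by
  have hkill := fun A hA' => gnr r S.V w S.Q S.pol hT hA A hA' m n t ht
  obtain ⟨t₁, t₂, htt, hk1, hk2, hiso, hz⟩ := psd r m n S.Q t hdet hsym hkill
  have ht2 : t₂ = 0 ∨ Even r ∨ C := by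
    rcases hmn with rfl | hC
    · rcases Nat.even_or_odd r with hr | hr
      · exact Or.inr (Or.inl hr)
      · refine Or.inl (hz (Or.inr (Or.inr ?_)))
        have h1 : Even (m + m) := ⟨m, rfl⟩
        exact h1.add_odd hr
    · exact Or.inr (Or.inr hC)
  obtain ⟨a, b, ha, hb, hl⟩ := hs m n t₁ t₂ (fun g hg => hiso ℂ g hg) hmn ht2
  have hmn' : m = n ∨ μ = 0 := hmn.imp id hμ
  have hzero : t₂ = 0 → b = 0 := by
    intro h
    rw [h, up_zero, act_zero] at hb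
    apply up_inj ℂ
    rw [hb, up_zero]
  have hzero' : b = 0 → t₂ = 0 := by
    intro h
    rw [h, up_zero] at hb
    have h1 := act_inv' (S.M σ) (up ℂ t₂)
    rw [← hb, act_zero] at h1
    apply up_inj ℂ
    rw [← h1, up_zero]
  refine ⟨a, b, ?_, ?_, ?_, ?_, ?_, ?_⟩
  · exact hdg r m n (S.W σ) S.Q Q' (S.M σ) c μ t₁ a hdet hsym hk1 hM hc hW hmn' ha
  · exact hdg r m n (S.W σ) S.Q Q' (S.M σ) c μ t₂ b hdet hsym hk2 hM hc hW hmn' hb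
  · rw [up_add, ha, hb, ← act_add, ← up_add, ← htt]
  · intro ℓ
    have : Fact (Nat.Prime ℓ) := ⟨ℓ.2⟩
    obtain ⟨h1, h2⟩ := hl ℓ
    rw [up_add, h1, h2, ← act_add, ← up_add, ← htt]
  · intro h
    apply hzero
    apply hz
    rcases h with h | h | h
    · exact Or.inl (hodd h)
    · exact Or.inr (Or.inl h)
    · exact Or.inr (Or.inr h)
  · rintro ⟨g, hg, hne⟩ hb0
    apply hne
    have h0 := hzero' hb0
    have h1 := (hiso ℚ g (by rw [map_q]; exact hg)).1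
    rw [up_rat] at h1
    rw [htt, h0, add_zero]
    exact h1

/-- MAIN -/
theorem st_MAIN (sym : ST_SYM) (kpl : ST_KPL) (sml : ST_SML) (fct : ST_FCT) (psd : ST_PSD)
    (trp : ST_TRP) (hdg : ST_HDG) (wt0 : ST_WT0) (gnr : ST_GNR) : ST_MAIN := by
  intro r S w hT hA σ habs
  have hpure := hT.1
  obtain ⟨hdet, hev, hodd, -⟩ := sym r S.V w S.Q hpure S.pol
  have hsym : (S.Q)ᵀ = S.Q ∨ (S.Q)ᵀ = -S.Q := by
    rcases Int.even_or_odd w with h | h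
    · exact Or.inl (hev h)
    · exact Or.inr (hodd h)
  by_cases hF : S.AbsAt σ (formT S.Q)
  · obtain ⟨t', ht', hM', hl'⟩ := hF
    obtain ⟨Q', hQ', rfl⟩ := (fct r S.Q (S.M σ) hdet).2 t' hM'
    have hM := (sml r ℂ S.Q Q' (S.M σ) hdet hQ').2 hM'
    have hE : ∀ ℓ : Nat.Primes, (S.E σ ℓ : Matrix (Fin r) (Fin r) (@Padic ℓ ⟨ℓ.2⟩))ᵀ *
        Q'.map (algebraMap ℚ (@Padic ℓ ⟨ℓ.2⟩)) *
        (S.E σ ℓ : Matrix (Fin r) (Fin r) (@Padic ℓ ⟨ℓ.2⟩)) =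
        S.Q.map (algebraMap ℚ (@Padic ℓ ⟨ℓ.2⟩)) := by
      intro ℓ
      have : Fact (Nat.Prime ℓ) := ⟨ℓ.2⟩
      exact (sml r (@Padic ℓ ⟨ℓ.2⟩) S.Q Q' (S.E σ ℓ) hdet hQ').2 (hl' ℓ)
    have hW := (kpl r ℂ Q' (S.W σ).D hQ').2.1 ht'
    obtain ⟨s, hs1, hs2⟩ := trp r S.Q Q' (S.M σ) (S.E σ) 1 (fun ℓ => 1) hdet hQ' one_ne_zero
      (fun ℓ => by
        have : Fact (Nat.Prime ℓ) := ⟨ℓ.2⟩
        exact one_ne_zero)
      (by rw [one_smul]; exact hM)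
      (fun ℓ => by
        have : Fact (Nat.Prime ℓ) := ⟨ℓ.2⟩
        rw [one_smul]; exact hE ℓ)
    refine ⟨s, hs1, ?_⟩
    intro m n t ht _
    refine main_aux psd hdg gnr S w hT hA σ hdet hsym hodd Q' 1 0 one_ne_zero
      (by rw [one_smul]; exact hM) (by rw [zero_smul]; exact hW) s True ?_ (fun _ => rfl) m n t ht
      (Or.inr trivial)
    intro m n t₁ t₂ hg h1 h2
    exact hs2 m n t₁ t₂ hg (Or.inr ⟨rfl, fun _ => rfl⟩) (Or.inr (Or.inr ⟨rfl, fun _ => rfl⟩))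
  · obtain ⟨t', ht', hM', hl'⟩ := habs
    obtain ⟨Q', hQ', rfl⟩ := (fct r S.Q (S.M σ) hdet).1 t' hM'
    obtain ⟨c, hc, hM⟩ := (sml r ℂ S.Q Q' (S.M σ) hdet hQ').1 hM'
    have hE : ∀ ℓ : Nat.Primes, ∃ e : @Padic ℓ ⟨ℓ.2⟩, e ≠ 0 ∧
        (S.E σ ℓ : Matrix (Fin r) (Fin r) (@Padic ℓ ⟨ℓ.2⟩))ᵀ *
        Q'.map (algebraMap ℚ (@Padic ℓ ⟨ℓ.2⟩)) *
        (S.E σ ℓ : Matrix (Fin r) (Fin r) (@Padic ℓ ⟨ℓ.2⟩)) =
        e • S.Q.map (algebraMap ℚ (@Padic ℓ ⟨ℓ.2⟩)) := by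
      intro ℓ
      have : Fact (Nat.Prime ℓ) := ⟨ℓ.2⟩
      exact (sml r (@Padic ℓ ⟨ℓ.2⟩) S.Q Q' (S.E σ ℓ) hdet hQ').1 (hl' ℓ)
    choose e he hE' using hE
    obtain ⟨μ, hW⟩ := (kpl r ℂ Q' (S.W σ).D hQ').1.1 ht'
    obtain ⟨s, hs1, hs2⟩ := trp r S.Q Q' (S.M σ) (S.E σ) c e hdet hQ' hc he hM hE'
    refine ⟨s, hs1, ?_⟩
    intro m n t ht hcase
    by_cases hmn : m = n
    · refine main_aux psd hdg gnr S w hT hA σ hdet hsym hodd Q' c μ hc hM hW s False ?_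
        (fun h => h.elim) m n t ht (Or.inl hmn)
      intro m n t₁ t₂ hg h1 h2
      refine hs2 m n t₁ t₂ hg ?_ ?_
      · rcases h1 with h1 | h1
        · exact Or.inl h1
        · exact h1.elim
      · rcases h2 with h2 | h2 | h2
        · exact Or.inl h2
        · exact Or.inr (Or.inl h2)
        · exact h2.elim
    · have hw : w ≠ 0 := by
        rcases hcase with h | h | h
        · exact absurd h hmn
        · exact h
        · exact absurd h hF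
      have ht0 : t = 0 := wt0 r m n S.V w t hpure hw hmn ht
      subst ht0
      refine ⟨0, 0, hodge_zero _, hodge_zero _, ?_, ?_, fun _ => rfl, ?_⟩
      · rw [add_zero, up_zero, act_zero]
      · intro ℓ
        have : Fact (Nat.Prime ℓ) := ⟨ℓ.2⟩
        rw [smul_zero, add_zero, up_zero, act_zero]
      · rintro ⟨g, -, hne⟩
        exact absurd (act_zero g) hne

end Pool.Agent.Helper21.TH
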